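import Mathlib

set_option autoImplicit false

namespace Pool.Agent.H38Z.Acy

variable {V : Type}

/-- `c` (only its values on the edges of `G` matter) is an acyclic edge colouring of `G`:
distinct edges with a common end get different colours, and for any two colours `a`, `b` no
cycle of `G` has all its edges coloured `a` or `b`. -/
def IsAcyclicColouring (G : SimpleGraph V) (c : Sym2 V → ℕ) : Prop :=
  (∀ e ∈ G.edgeSet, ∀ f ∈ G.edgeSet, e ≠ f → (∃ v : V, v ∈ e ∧ v ∈ f) → c e ≠ c f) ∧
    ∀ (a b : ℕ) (v : V) (w : G.Walk v v), w.IsCycle → ¬ ∀ e ∈ w.edges, c e = a ∨ c e = b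

/-- The acyclic chromatic index: the least `k` such that `G` has an acyclic edge colouring with
colours in `{0, …, k - 1}`. -/
noncomputable def acyclicIndex (G : SimpleGraph V) : ℕ :=
  sInf {k : ℕ | ∃ c : Sym2 V → ℕ, IsAcyclicColouring G c ∧ ∀ e ∈ G.edgeSet, c e < k}

/-- The acyclic list chromatic index: the least `k` such that for every assignment of lists of
`k` colours to the edges there is an acyclic edge colouring from the lists. -/
noncomputable def acyclicListIndex (G : SimpleGraph V) : ℕ :=
  sInf {k : ℕ | ∀ L : Sym2 V → Finset ℕ, (∀ e ∈ G.edgeSet, (L e).card = k) →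
    ∃ c : Sym2 V → ℕ, IsAcyclicColouring G c ∧ ∀ e ∈ G.edgeSet, c e ∈ L e}

end Pool.Agent.H38Z.Acy
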