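import Pool.Agent.H38Z.Acy.Defs

set_option autoImplicit false

namespace Pool.Agent.H38Z.Acy

open SimpleGraph

variable {V : Type}

/-- A rank function certifies that no cycle avoids the colour `k`. -/
theorem no_cycle_of_rank (G : SimpleGraph V) (c : Sym2 V → ℕ) (k : ℕ) (ρ : V → ℕ)
    (h : ∀ v u u' : V, G.Adj v u → G.Adj v u' → u ≠ u' → c s(v, u) ≠ k → c s(v, u') ≠ k →
      ρ u < ρ v ∨ ρ u' < ρ v)
    (v : V) (w : G.Walk v v) (hw : w.IsCycle) : ¬ ∀ e ∈ w.edges, c e ≠ k := by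
  classical
  intro hall
  obtain ⟨x, hx, hmin⟩ := Finset.exists_min_image w.support.toFinset ρ
    ⟨v, by simp⟩
  have hx' : x ∈ w.support := by simpa using hx
  have h2 := hw.ncard_neighborSet_toSubgraph_eq_two hx'
  obtain ⟨u, u', huu, hset⟩ := Set.ncard_eq_two.1 h2
  have hu : w.toSubgraph.Adj x u := by
    have : u ∈ w.toSubgraph.neighborSet x := by rw [hset]; simp
    exact this
  have hu' : w.toSubgraph.Adj x u' := by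
    have : u' ∈ w.toSubgraph.neighborSet x := by rw [hset]; simp
    exact this
  have m1 : u ∈ w.support := Walk.mem_support_of_adj_toSubgraph hu.symm
  have m2 : u' ∈ w.support := Walk.mem_support_of_adj_toSubgraph hu'.symm
  have e1 := hall _ (Walk.adj_toSubgraph_iff_mem_edges.1 hu)
  have e2 := hall _ (Walk.adj_toSubgraph_iff_mem_edges.1 hu')
  have r1 := hmin u (by simpa using m1)
  have r2 := hmin u' (by simpa using m2)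
  rcases h x u u' hu.adj_sub hu'.adj_sub huu e1 e2 with h3 | h3 <;> omega

/-- Long lists always admit an acyclic colouring. -/
theorem long_lists [Fintype V] (G : SimpleGraph V) (L : Sym2 V → Finset ℕ)
    (hL : ∀ e ∈ G.edgeSet, (L e).card = Fintype.card (Sym2 V)) :
    ∃ c : Sym2 V → ℕ, IsAcyclicColouring G c ∧ ∀ e ∈ G.edgeSet, c e ∈ L e := by
  classical
  let t : Sym2 V → Finset ℕ := fun e =>
    if e ∈ G.edgeSet then L e else Finset.range (Fintype.card (Sym2 V))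
  have ht : ∀ e, (t e).card = Fintype.card (Sym2 V) := by
    intro e
    by_cases he : e ∈ G.edgeSet
    · simp [t, he, hL e he]
    · simp [t, he]
  have hall : ∀ s : Finset (Sym2 V), s.card ≤ (s.biUnion t).card := by
    intro s
    rcases s.eq_empty_or_nonempty with rfl | ⟨e, he⟩
    · simp
    · calc s.card ≤ Fintype.card (Sym2 V) := Finset.card_le_univ s
        _ = (t e).card := (ht e).symm
        _ ≤ (s.biUnion t).card := Finset.card_le_card (Finset.subset_biUnion_of_mem t he)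
  obtain ⟨c, hc, hct⟩ := (Finset.all_card_le_biUnion_card_iff_exists_injective t).1 hall
  refine ⟨c, ⟨fun e _ f _ hef _ h => hef (hc h), ?_⟩, ?_⟩
  · intro a b v w hw hall2
    have h3 : 3 ≤ w.length := hw.isCircuit.three_le_length
    have hn : w.edges.Nodup := hw.isCircuit.isTrail.edges_nodup
    have hcard : w.edges.toFinset.card = w.length := by
      rw [List.toFinset_card_of_nodup hn, Walk.length_edges]
    have hsub : w.edges.toFinset.image c ⊆ {a, b} := by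
      intro x hx
      obtain ⟨e, he, rfl⟩ := Finset.mem_image.1 hx
      have := hall2 e (by simpa using he)
      simpa using this
    have h4 := Finset.card_le_card hsub
    rw [Finset.card_image_of_injective _ hc, hcard] at h4
    have h5 : ({a, b} : Finset ℕ).card ≤ 2 := Finset.card_le_two
    omega
  · intro e he
    have := hct e
    simpa [t, he] using this

theorem proper_at {G : SimpleGraph V} {c : Sym2 V → ℕ} (hc : IsAcyclicColouring G c)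
    {v u u' : V} (h1 : G.Adj v u) (h2 : G.Adj v u') (h : u ≠ u') : c s(v, u) ≠ c s(v, u') := by
  refine hc.1 _ (by simpa using h1) _ (by simpa using h2) ?_ ⟨v, by simp, by simp⟩
  intro h3
  exact h (Sym2.congr_right.1 h3)

/-- An eight-cycle is not two-coloured. -/
theorem eight_cycle {G : SimpleGraph V} {c : Sym2 V → ℕ} (hc : IsAcyclicColouring G c)
    {w0 w1 w2 w3 w4 w5 w6 w7 : V} (hnd : [w0, w1, w2, w3, w4, w5, w6, w7].Nodup)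
    (a0 : G.Adj w0 w1) (a1 : G.Adj w1 w2) (a2 : G.Adj w2 w3) (a3 : G.Adj w3 w4)
    (a4 : G.Adj w4 w5) (a5 : G.Adj w5 w6) (a6 : G.Adj w6 w7) (a7 : G.Adj w7 w0) (a b : ℕ) :
    ¬ ((c s(w0, w1) = a ∨ c s(w0, w1) = b) ∧ (c s(w1, w2) = a ∨ c s(w1, w2) = b) ∧
      (c s(w2, w3) = a ∨ c s(w2, w3) = b) ∧ (c s(w3, w4) = a ∨ c s(w3, w4) = b) ∧
      (c s(w4, w5) = a ∨ c s(w4, w5) = b) ∧ (c s(w5, w6) = a ∨ c s(w5, w6) = b) ∧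
      (c s(w6, w7) = a ∨ c s(w6, w7) = b) ∧ (c s(w7, w0) = a ∨ c s(w7, w0) = b)) := by
  intro h
  let w : G.Walk w0 w0 := Walk.cons a0 (Walk.cons a1 (Walk.cons a2 (Walk.cons a3 (Walk.cons a4
    (Walk.cons a5 (Walk.cons a6 (Walk.cons a7 Walk.nil)))))))
  have hw : w.IsCycle := by
    simp only [List.nodup_cons, List.mem_cons, not_or, List.not_mem_nil, not_false_eq_true,
      and_true, List.nodup_nil] at hnd
    obtain ⟨⟨n01, n02, n03, n04, n05, n06, n07⟩, ⟨n12, n13, n14, n15, n16, n17⟩,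
      ⟨n23, n24, n25, n26, n27⟩, ⟨n34, n35, n36, n37⟩, ⟨n45, n46, n47⟩, ⟨n56, n57⟩, n67⟩ := hnd
    rw [Walk.cons_isCycle_iff, Walk.isPath_def]
    simp only [Walk.support_cons, Walk.support_nil, Walk.edges_cons, Walk.edges_nil,
      List.nodup_cons, List.mem_cons, not_or, List.not_mem_nil, not_false_eq_true,
      and_true, List.nodup_nil, Sym2.eq_iff]
    simp [n01, n02, n03, n04, n05, n06, n07, n12, n13, n14, n15, n16, n17, n23, n24, n25, n26,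
      n27, n34, n35, n36, n37, n45, n46, n47, n56, n57, n67, Ne.symm n01, Ne.symm n02,
      Ne.symm n03, Ne.symm n04, Ne.symm n05, Ne.symm n06, Ne.symm n07]
  refine hc.2 a b w0 w hw ?_
  intro e he
  simp only [w, Walk.edges_cons, Walk.edges_nil, List.mem_cons, List.not_mem_nil, or_false] at he
  obtain ⟨h0, h1, h2, h3, h4, h5, h6, h7⟩ := h
  rcases he with rfl | rfl | rfl | rfl | rfl | rfl | rfl | rfl <;> assumption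

set_option synthInstance.maxSize 100000 in
/-- The colour lemma for the Petersen graph with two adjacent vertices removed. -/
theorem gadget_fin : ∀ p e0 e7 : Fin 3, p ≠ e0 → p ≠ e7 → e0 ≠ e7 →
    ∀ e1 d1 : Fin 3, e0 ≠ e1 → e0 ≠ d1 → e1 ≠ d1 →
    ∀ e2 r : Fin 3, e1 ≠ e2 → e1 ≠ r → e2 ≠ r →
    ∀ e3 d3 : Fin 3, e2 ≠ e3 → e2 ≠ d3 → e3 ≠ d3 → d3 ≠ e7 →
    ∀ e4 q : Fin 3, e3 ≠ e4 → e3 ≠ q → e4 ≠ q → e4 ≠ d1 →
    ∀ e5 : Fin 3, e4 ≠ e5 → e5 ≠ d1 →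
    ∀ e6 s : Fin 3, e5 ≠ e6 → e5 ≠ s → e6 ≠ s → e6 ≠ d3 → e6 ≠ e7 →
    p = q ∧ r = s ∧ (p = r → e0 ≠ p ∧ e1 ≠ p ∧ e2 ≠ p ∧ e3 ≠ p ∧ e4 ≠ p ∧ e5 ≠ p ∧ e6 ≠ p ∧
      e7 ≠ p) := by
  decide +kernel

/-- The three colours of the gadget lists. -/
def zc : Fin 3 → ℕ := ![1, 3, 4]

theorem zc_inj : Function.Injective zc := by decide

theorem zc_surj {x : ℕ} (h : x ∈ ({1, 3, 4} : Finset ℕ)) : ∃ i, zc i = x := by
  simp only [Finset.mem_insert, Finset.mem_singleton] at h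
  rcases h with rfl | rfl | rfl
  exacts [⟨0, rfl⟩, ⟨1, rfl⟩, ⟨2, rfl⟩]

theorem zc_key : ∀ p x : Fin 3, x ≠ p → (zc x = zc (p + 1) ∨ zc x = zc (p + 2)) := by decide

theorem gadget_nat {p e0 e7 e1 d1 e2 r e3 d3 e4 q e5 e6 s : ℕ}
    (mp : p ∈ ({1, 3, 4} : Finset ℕ)) (m0 : e0 ∈ ({1, 3, 4} : Finset ℕ))
    (m7 : e7 ∈ ({1, 3, 4} : Finset ℕ)) (m1 : e1 ∈ ({1, 3, 4} : Finset ℕ))
    (md1 : d1 ∈ ({1, 3, 4} : Finset ℕ)) (m2 : e2 ∈ ({1, 3, 4} : Finset ℕ))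
    (mr : r ∈ ({1, 3, 4} : Finset ℕ)) (m3 : e3 ∈ ({1, 3, 4} : Finset ℕ))
    (md3 : d3 ∈ ({1, 3, 4} : Finset ℕ)) (m4 : e4 ∈ ({1, 3, 4} : Finset ℕ))
    (mq : q ∈ ({1, 3, 4} : Finset ℕ)) (m5 : e5 ∈ ({1, 3, 4} : Finset ℕ))
    (m6 : e6 ∈ ({1, 3, 4} : Finset ℕ)) (ms : s ∈ ({1, 3, 4} : Finset ℕ))
    (h1 : p ≠ e0) (h2 : p ≠ e7) (h3 : e0 ≠ e7) (h4 : e0 ≠ e1) (h5 : e0 ≠ d1) (h6 : e1 ≠ d1)
    (h7 : e1 ≠ e2) (h8 : e1 ≠ r) (h9 : e2 ≠ r) (h10 : e2 ≠ e3) (h11 : e2 ≠ d3) (h12 : e3 ≠ d3)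
    (h13 : d3 ≠ e7) (h14 : e3 ≠ e4) (h15 : e3 ≠ q) (h16 : e4 ≠ q) (h17 : e4 ≠ d1)
    (h18 : e4 ≠ e5) (h19 : e5 ≠ d1) (h20 : e5 ≠ e6) (h21 : e5 ≠ s) (h22 : e6 ≠ s)
    (h23 : e6 ≠ d3) (h24 : e6 ≠ e7)
    (hcyc : ∀ a b : ℕ, ¬ ((e0 = a ∨ e0 = b) ∧ (e1 = a ∨ e1 = b) ∧ (e2 = a ∨ e2 = b) ∧
      (e3 = a ∨ e3 = b) ∧ (e4 = a ∨ e4 = b) ∧ (e5 = a ∨ e5 = b) ∧ (e6 = a ∨ e6 = b) ∧
      (e7 = a ∨ e7 = b))) :
    p = q ∧ r = s ∧ p ≠ r := by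
  obtain ⟨p, rfl⟩ := zc_surj mp
  obtain ⟨e0, rfl⟩ := zc_surj m0
  obtain ⟨e7, rfl⟩ := zc_surj m7
  obtain ⟨e1, rfl⟩ := zc_surj m1
  obtain ⟨d1, rfl⟩ := zc_surj md1
  obtain ⟨e2, rfl⟩ := zc_surj m2
  obtain ⟨r, rfl⟩ := zc_surj mr
  obtain ⟨e3, rfl⟩ := zc_surj m3
  obtain ⟨d3, rfl⟩ := zc_surj md3
  obtain ⟨e4, rfl⟩ := zc_surj m4
  obtain ⟨q, rfl⟩ := zc_surj mq
  obtain ⟨e5, rfl⟩ := zc_surj m5
  obtain ⟨e6, rfl⟩ := zc_surj m6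
  obtain ⟨s, rfl⟩ := zc_surj ms
  simp only [ne_eq, zc_inj.eq_iff] at *
  obtain ⟨k1, k2, k3⟩ := gadget_fin p e0 e7 h1 h2 h3 e1 d1 h4 h5 h6 e2 r h7 h8 h9 e3 d3 h10 h11
    h12 h13 e4 q h14 h15 h16 h17 e5 h18 h19 e6 s h20 h21 h22 h23 h24
  refine ⟨k1, k2, fun hpr => ?_⟩
  obtain ⟨n0, n1, n2, n3, n4, n5, n6, n7⟩ := k3 hpr
  have key : ∀ x : Fin 3, x ≠ p → (zc x = zc (p + 1) ∨ zc x = zc (p + 2)) := zc_key p
  exact hcyc (zc (p + 1)) (zc (p + 2)) ⟨key _ n0, key _ n1, key _ n2, key _ n3, key _ n4,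
    key _ n5, key _ n6, key _ n7⟩

/-- The gadget lemma in a graph. -/
theorem gadget {G : SimpleGraph V} {c : Sym2 V → ℕ} (hc : IsAcyclicColouring G c)
    {L : Sym2 V → Finset ℕ} (hL : ∀ e ∈ G.edgeSet, c e ∈ L e)
    (w0 w1 w2 w3 w4 w5 w6 w7 x0 x2 x4 x6 : V)
    (hnd : [w0, w1, w2, w3, w4, w5, w6, w7].Nodup)
    (hx : x0 ≠ w1 ∧ x0 ≠ w7 ∧ x2 ≠ w1 ∧ x2 ≠ w3 ∧ x4 ≠ w3 ∧ x4 ≠ w5 ∧ x6 ≠ w5 ∧ x6 ≠ w7)
    (ha : G.Adj w0 w1 ∧ G.Adj w1 w2 ∧ G.Adj w2 w3 ∧ G.Adj w3 w4 ∧ G.Adj w4 w5 ∧ G.Adj w5 w6 ∧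
      G.Adj w6 w7 ∧ G.Adj w7 w0 ∧ G.Adj w1 w5 ∧ G.Adj w3 w7 ∧ G.Adj w0 x0 ∧ G.Adj w2 x2 ∧
      G.Adj w4 x4 ∧ G.Adj w6 x6)
    (hl : L s(w0, w1) = {1, 3, 4} ∧ L s(w1, w2) = {1, 3, 4} ∧ L s(w2, w3) = {1, 3, 4} ∧
      L s(w3, w4) = {1, 3, 4} ∧ L s(w4, w5) = {1, 3, 4} ∧ L s(w5, w6) = {1, 3, 4} ∧
      L s(w6, w7) = {1, 3, 4} ∧ L s(w7, w0) = {1, 3, 4} ∧ L s(w1, w5) = {1, 3, 4} ∧
      L s(w3, w7) = {1, 3, 4} ∧ L s(w0, x0) = {1, 3, 4} ∧ L s(w2, x2) = {1, 3, 4} ∧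
      L s(w4, x4) = {1, 3, 4} ∧ L s(w6, x6) = {1, 3, 4}) :
    c s(w0, x0) = c s(w4, x4) ∧ c s(w2, x2) = c s(w6, x6) ∧ c s(w0, x0) ≠ c s(w2, x2) := by
  obtain ⟨a0, a1, a2, a3, a4, a5, a6, a7, b1, b3, c0, c2, c4, c6⟩ := ha
  obtain ⟨l0, l1, l2, l3, l4, l5, l6, l7, k1, k3, j0, j2, j4, j6⟩ := hl
  obtain ⟨y1, y2, y3, y4, y5, y6, y7, y8⟩ := hx
  have hcyc := eight_cycle hc hnd a0 a1 a2 a3 a4 a5 a6 a7
  have mem : ∀ {u v : V}, G.Adj u v → L s(u, v) = {1, 3, 4} →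
      c s(u, v) ∈ ({1, 3, 4} : Finset ℕ) := fun h1 h2 => h2 ▸ hL _ (by simpa using h1)
  simp only [List.nodup_cons, List.mem_cons, not_or, List.not_mem_nil, not_false_eq_true,
      and_true, List.nodup_nil] at hnd
  obtain ⟨⟨n01, n02, n03, n04, n05, n06, n07⟩, ⟨n12, n13, n14, n15, n16, n17⟩,
    ⟨n23, n24, n25, n26, n27⟩, ⟨n34, n35, n36, n37⟩, ⟨n45, n46, n47⟩, ⟨n56, n57⟩, n67⟩ := hnd
  have pr : ∀ {v u u' : V}, G.Adj v u → G.Adj v u' → u ≠ u' → c s(v, u) ≠ c s(v, u') :=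
    fun h1 h2 h3 => proper_at hc h1 h2 h3
  have pr2 : ∀ {v u u' : V}, G.Adj u v → G.Adj v u' → u ≠ u' → c s(u, v) ≠ c s(v, u') :=
    fun h1 h2 h3 => by rw [Sym2.eq_swap]; exact proper_at hc h1.symm h2 h3
  have pr3 : ∀ {v u u' : V}, G.Adj u v → G.Adj u' v → u ≠ u' → c s(u, v) ≠ c s(u', v) :=
    fun {v u u'} h1 h2 h3 => by
      rw [Sym2.eq_swap (a := u), Sym2.eq_swap (a := u')]; exact proper_at hc h1.symm h2.symm h3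
  refine gadget_nat (mem c0 j0) (mem a0 l0) (mem a7 l7) (mem a1 l1) (mem b1 k1) (mem a2 l2)
    (mem c2 j2) (mem a3 l3) (mem b3 k3) (mem a4 l4) (mem c4 j4) (mem a5 l5) (mem a6 l6)
    (mem c6 j6) (pr c0 a0 y1) (pr2 a7 c0 y2.symm).symm (pr2 a7 a0 (Ne.symm n17)).symm
    (pr2 a0 a1 n02) (pr2 a0 b1 n05) (pr a1 b1 n25)
    (pr2 a1 a2 n13) (pr2 a1 c2 y3.symm) (pr a2 c2 y4.symm)
    (pr2 a2 a3 n24) (pr2 a2 b3 n27) (pr a3 b3 n47)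
    (pr2 b3 a7 (Ne.symm n03)) (pr2 a3 a4 n35) (pr2 a3 c4 y5.symm) (pr a4 c4 y6.symm)
    (pr3 a4 b1 (Ne.symm n14)) (pr2 a4 a5 n46) (pr2 b1 a5 n16).symm
    (pr2 a5 a6 n57) (pr2 a5 c6 y7.symm) (pr a6 c6 y8.symm)
    (pr3 a6 b3 (Ne.symm n36)) (pr2 a6 a7 (Ne.symm n06)) hcyc

/-- The final contradiction on the hexagon. -/
theorem hexagon {a b c x1 y2 x3 y4 x5 y6 : ℕ}
    (ma : a ∈ ({1, 3, 4} : Finset ℕ)) (mb : b ∈ ({1, 3, 4} : Finset ℕ))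
    (mc : c ∈ ({1, 3, 4} : Finset ℕ)) (hab : a ≠ b) (hac : a ≠ c) (hbc : b ≠ c)
    (m1 : x1 ∈ ({1, 2, 3} : Finset ℕ)) (m2 : y2 ∈ ({1, 2, 4} : Finset ℕ))
    (m3 : x3 ∈ ({1, 2, 3} : Finset ℕ)) (m4 : y4 ∈ ({1, 2, 4} : Finset ℕ))
    (m5 : x5 ∈ ({1, 2, 3} : Finset ℕ)) (m6 : y6 ∈ ({1, 2, 4} : Finset ℕ))
    (h1 : x1 ≠ a ∧ x1 ≠ b) (h2 : y2 ≠ b ∧ y2 ≠ c) (h3 : x3 ≠ c ∧ x3 ≠ a)
    (h4 : y4 ≠ a ∧ y4 ≠ b) (h5 : x5 ≠ b ∧ x5 ≠ c) (h6 : y6 ≠ c ∧ y6 ≠ a)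
    (g1 : x1 ≠ y2) (g2 : y2 ≠ x3) (g3 : x3 ≠ y4) (g4 : y4 ≠ x5) (g5 : x5 ≠ y6) (g6 : y6 ≠ x1) :
    False := by
  simp only [Finset.mem_insert, Finset.mem_singleton] at *
  rcases ma with rfl | rfl | rfl <;> rcases mb with rfl | rfl | rfl <;>
    rcases mc with rfl | rfl | rfl <;> omega

end Pool.Agent.H38Z.Acy
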