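import Pool.Agent.H38Z.Acy.Gen

set_option autoImplicit false

namespace Pool.Agent.H38Z.Acy

open SimpleGraph

/-- Neighbour lists with the colour of the edge in the model colouring. -/
def tbl : List (List (ℕ × ℕ)) :=
  [[(1, 2), (5, 1), (9, 0)],
  [(0, 2), (2, 0), (27, 1)],
  [(1, 0), (3, 1), (35, 2)],
  [(2, 1), (4, 2), (37, 0)],
  [(3, 2), (5, 0), (11, 1)],
  [(4, 0), (0, 1), (19, 2)],
  [(55, 1), (47, 2)],
  [(45, 1)],
  [(53, 2)],
  [(10, 1), (16, 2), (0, 0)],
  [(9, 1), (11, 2), (14, 0)],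
  [(10, 2), (12, 0), (4, 1)],
  [(11, 0), (13, 2), (16, 1)],
  [(12, 2), (14, 1), (17, 0)],
  [(13, 1), (15, 2), (10, 0)],
  [(14, 2), (16, 0), (51, 1)],
  [(15, 0), (9, 2), (12, 1)],
  [(18, 2), (24, 1), (13, 0)],
  [(17, 2), (19, 1), (22, 0)],
  [(18, 1), (20, 0), (5, 2)],
  [(19, 0), (21, 1), (24, 2)],
  [(20, 1), (22, 2), (25, 0)],
  [(21, 2), (23, 1), (18, 0)],
  [(22, 1), (24, 0), (43, 2)],
  [(23, 0), (17, 1), (20, 2)],
  [(26, 1), (32, 2), (21, 0)],
  [(25, 1), (27, 2), (30, 0)],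
  [(26, 2), (28, 0), (1, 1)],
  [(27, 0), (29, 2), (32, 1)],
  [(28, 2), (30, 1), (33, 0)],
  [(29, 1), (31, 2), (26, 0)],
  [(30, 2), (32, 0), (41, 1)],
  [(31, 0), (25, 2), (28, 1)],
  [(34, 2), (40, 1), (29, 0)],
  [(33, 2), (35, 1), (38, 0)],
  [(34, 1), (36, 0), (2, 2)],
  [(35, 0), (37, 1), (40, 2)],
  [(36, 1), (38, 2), (3, 0)],
  [(37, 2), (39, 1), (34, 0)],
  [(38, 1), (40, 0), (49, 2)],
  [(39, 0), (33, 1), (36, 2)],
  [(42, 2), (48, 0), (31, 1)],
  [(41, 2), (43, 0), (46, 1)],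
  [(42, 0), (44, 1), (23, 2)],
  [(43, 1), (45, 0), (48, 2)],
  [(44, 0), (46, 2), (7, 1)],
  [(45, 2), (47, 0), (42, 1)],
  [(46, 0), (48, 1), (6, 2)],
  [(47, 1), (41, 0), (44, 2)],
  [(50, 1), (56, 0), (39, 2)],
  [(49, 1), (51, 0), (54, 2)],
  [(50, 0), (52, 2), (15, 1)],
  [(51, 2), (53, 0), (56, 1)],
  [(52, 0), (54, 1), (8, 2)],
  [(53, 1), (55, 0), (50, 2)],
  [(54, 0), (56, 2), (6, 1)],
  [(55, 2), (49, 0), (52, 1)]]

/-- The colour of the edge `a b` in the model colouring, `3` if there is no such edge. -/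
def colN (a b : ℕ) : ℕ := ((tbl.getD a []).lookup b).getD 3

theorem colN_symm : ∀ a b : Fin 57, colN a b = colN b a := by decide +kernel

theorem colN_self : ∀ a : Fin 57, colN a a = 3 := by decide +kernel

theorem colN_le : ∀ a b : Fin 57, colN a b ≤ 3 := by decide +kernel

/-- The graph. -/
def G : SimpleGraph (Fin 57) where
  Adj a b := colN a b ≠ 3
  symm := ⟨fun a b h => by rwa [colN_symm]⟩
  loopless := ⟨fun a h => h (colN_self a)⟩

instance : DecidableRel G.Adj := fun a b => inferInstanceAs (Decidable (colN a b ≠ 3))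

/-- The model colouring. -/
def c0 : Sym2 (Fin 57) → ℕ := Sym2.lift ⟨fun a b => colN a b, colN_symm⟩

def rk (k v : ℕ) : ℕ := (([[14, 13, 43, 42, 41, 15, 28, 0, 56, 38, 39, 40, 36, 35, 34, 33, 37, 18, 17, 16, 20, 21, 22, 23, 19, 10, 11, 12, 8, 7, 6, 5, 9, 46, 45, 44, 48, 49, 50, 51, 47, 4, 3, 24, 25, 1, 2, 27, 26, 52, 53, 32, 31, 55, 54, 29, 30],
  [40, 41, 42, 15, 14, 13, 0, 0, 55, 39, 35, 34, 33, 32, 36, 37, 38, 31, 30, 12, 11, 28, 29, 9, 10, 27, 23, 22, 21, 20, 24, 25, 26, 19, 18, 43, 44, 16, 17, 46, 45, 6, 7, 8, 4, 3, 2, 1, 5, 47, 51, 52, 53, 54, 50, 49, 48],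
  [15, 42, 41, 40, 13, 14, 0, 55, 0, 16, 17, 12, 11, 19, 18, 9, 10, 20, 24, 25, 26, 27, 23, 22, 21, 28, 29, 43, 44, 31, 30, 46, 45, 32, 36, 37, 38, 39, 35, 34, 33, 47, 51, 52, 53, 54, 50, 49, 48, 6, 7, 8, 4, 3, 2, 1, 5]] : List (List ℕ)).getD k []).getD v 0

theorem c0_proper : ∀ v u : Fin 57, colN v u ≠ 3 → ∀ u' : Fin 57, colN v u' ≠ 3 → u ≠ u' →
    colN v u ≠ colN v u' := by decide +kernel

set_option synthInstance.maxSize 100000 in
theorem c0_rank : ∀ k : Fin 3, ∀ v u : Fin 57, colN v u ≠ 3 → colN v u ≠ k → ∀ u' : Fin 57,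
    colN v u' ≠ 3 → colN v u' ≠ k → u ≠ u' → rk k u < rk k v ∨ rk k u' < rk k v := by
  decide +kernel

theorem c0_lt : ∀ e ∈ G.edgeSet, c0 e < 3 := by
  intro e he
  induction e using Sym2.ind with
  | h a b =>
    have h1 : colN a b ≠ 3 := he
    have h2 := colN_le a b
    change colN a b < 3
    omega

theorem c0_acyclic : IsAcyclicColouring G c0 := by
  constructor
  · rintro e he f hf hef ⟨v, hve, hvf⟩
    obtain ⟨u, rfl⟩ := Sym2.mem_iff_exists.1 hve
    obtain ⟨u', rfl⟩ := Sym2.mem_iff_exists.1 hvf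
    exact c0_proper v u he u' hf (fun h => hef (by rw [h]))
  · intro a b v w hw hall
    obtain ⟨k, hka, hkb⟩ : ∃ k : Fin 3, (k : ℕ) ≠ a ∧ (k : ℕ) ≠ b := by
      by_cases h0 : a = 0 ∨ b = 0
      · by_cases h1 : a = 1 ∨ b = 1
        · exact ⟨2, by simp; omega, by simp; omega⟩
        · exact ⟨1, by simp; omega, by simp; omega⟩
      · exact ⟨0, by simp; omega, by simp; omega⟩
    refine no_cycle_of_rank G c0 k (fun x => rk k x) ?_ v w hw ?_
    · intro x u u' h1 h2 h3 h4 h5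
      exact c0_rank k x u h1 h4 u' h2 h5 h3
    · intro e he h
      rcases hall e he with h' | h' <;> omega

/-- The type of the list of an edge. -/
def lstN (a b : ℕ) : Finset ℕ :=
  if a < 6 ∧ b < 6 then (if a / 2 = b / 2 then {1, 2, 3} else {1, 2, 4}) else {1, 3, 4}

theorem lstN_symm (a b : ℕ) : lstN a b = lstN b a := by
  unfold lstN
  simp only [and_comm, eq_comm]

theorem lstN_card (a b : ℕ) : (lstN a b).card = 3 := by
  unfold lstN
  split_ifs <;> rfl

/-- The bad list assignment. -/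
def L0 : Sym2 (Fin 57) → Finset ℕ := Sym2.lift ⟨fun a b => lstN a b, fun a b => lstN_symm a b⟩

instance (a b : Fin 57) (s : Finset ℕ) : Decidable (L0 s(a, b) = s) :=
  inferInstanceAs (Decidable (lstN a b = s))

theorem L0_card (e : Sym2 (Fin 57)) : (L0 e).card = 3 := by
  induction e using Sym2.ind with
  | h a b => exact lstN_card a b

theorem no_colouring (c : Sym2 (Fin 57) → ℕ) (hc : IsAcyclicColouring G c)
    (hL : ∀ e ∈ G.edgeSet, c e ∈ L0 e) : False := by
  obtain ⟨p0, q0, r0⟩ := gadget hc hL 9 10 11 12 13 14 15 16 0 4 17 51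
    (by decide +kernel) (by decide +kernel) (by decide +kernel) (by decide +kernel)
  obtain ⟨p1, q1, r1⟩ := gadget hc hL 17 18 19 20 21 22 23 24 13 5 25 43
    (by decide +kernel) (by decide +kernel) (by decide +kernel) (by decide +kernel)
  obtain ⟨p2, q2, r2⟩ := gadget hc hL 25 26 27 28 29 30 31 32 21 1 33 41
    (by decide +kernel) (by decide +kernel) (by decide +kernel) (by decide +kernel)
  obtain ⟨p3, q3, r3⟩ := gadget hc hL 33 34 35 36 37 38 39 40 29 2 3 49
    (by decide +kernel) (by decide +kernel) (by decide +kernel) (by decide +kernel)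
  obtain ⟨p4, q4, r4⟩ := gadget hc hL 41 42 43 44 45 46 47 48 31 23 7 6
    (by decide +kernel) (by decide +kernel) (by decide +kernel) (by decide +kernel)
  obtain ⟨p5, q5, r5⟩ := gadget hc hL 49 50 51 52 53 54 55 56 39 15 8 6
    (by decide +kernel) (by decide +kernel) (by decide +kernel) (by decide +kernel)
  have sw : ∀ a b : Fin 57, c s(a, b) = c s(b, a) := fun a b => by rw [Sym2.eq_swap]
  have mem : ∀ a b : Fin 57, G.Adj a b → c s(a, b) ∈ lstN a b := fun a b h => hL s(a, b) h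
  have pr : ∀ v u u' : Fin 57, G.Adj v u → G.Adj v u' → u ≠ u' → c s(v, u) ≠ c s(v, u') :=
    fun v u u' h1 h2 h3 => proper_at hc h1 h2 h3
  have z := pr 6 55 47 (by decide +kernel) (by decide +kernel) (by decide +kernel)
  rw [sw 9 0] at p0 r0
  rw [sw 11 4] at q0 r0
  rw [sw 17 13] at p1 r1
  rw [sw 19 5] at q1 r1
  rw [sw 25 21] at p2 r2
  rw [sw 27 1] at q2 r2
  rw [sw 33 29] at p3 r3
  rw [sw 37 3] at p3
  rw [sw 35 2] at q3 r3
  rw [sw 41 31] at p4 r4
  rw [sw 43 23] at q4 r4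
  rw [sw 47 6] at q4
  rw [sw 49 39] at p5 r5
  rw [sw 51 15] at q5 r5
  rw [sw 55 6] at q5
  have ma : c s(0, 9) ∈ ({1, 3, 4} : Finset ℕ) := mem 0 9 (by decide +kernel)
  have mb : c s(4, 11) ∈ ({1, 3, 4} : Finset ℕ) := mem 4 11 (by decide +kernel)
  have mc : c s(5, 19) ∈ ({1, 3, 4} : Finset ℕ) := mem 5 19 (by decide +kernel)
  have mb' : c s(1, 27) ∈ ({1, 3, 4} : Finset ℕ) := mem 1 27 (by decide +kernel)
  have mc' : c s(2, 35) ∈ ({1, 3, 4} : Finset ℕ) := mem 2 35 (by decide +kernel)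
  have hab : c s(0, 9) ≠ c s(4, 11) := r0
  have hac : c s(0, 9) ≠ c s(5, 19) := by omega
  have hbc : c s(4, 11) ≠ c s(5, 19) := by omega
  have haa : c s(3, 37) = c s(0, 9) := by omega
  have h1 : c s(1, 27) ≠ c s(0, 9) := by omega
  have h2 : c s(1, 27) ≠ c s(5, 19) := by omega
  have h3 : c s(2, 35) ≠ c s(0, 9) := by omega
  have h4 : c s(2, 35) ≠ c s(4, 11) := by omega
  have hbb : c s(1, 27) = c s(4, 11) := by
    clear * - ma mb mc mb' hab hac hbc h1 h2
    simp only [Finset.mem_insert, Finset.mem_singleton] at ma mb mc mb'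
    omega
  have hcc : c s(2, 35) = c s(5, 19) := by
    clear * - ma mb mc mc' hab hac hbc h3 h4
    simp only [Finset.mem_insert, Finset.mem_singleton] at ma mb mc mc'
    omega
  have pr' : ∀ v u u' : Fin 57, G.Adj v u → G.Adj v u' → u ≠ u' → c s(u, v) ≠ c s(v, u') :=
    fun v u u' h1 h2 h3 => by rw [sw u v]; exact pr v u u' h1 h2 h3
  refine hexagon (x1 := c s(0, 1)) (y2 := c s(1, 2)) (x3 := c s(2, 3)) (y4 := c s(3, 4))
    (x5 := c s(4, 5)) (y6 := c s(5, 0)) ma mb mc hab hac hbc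
    (mem 0 1 (by decide +kernel)) (mem 1 2 (by decide +kernel)) (mem 2 3 (by decide +kernel))
    (mem 3 4 (by decide +kernel)) (mem 4 5 (by decide +kernel)) (mem 5 0 (by decide +kernel))
    ⟨?_, ?_⟩ ⟨?_, ?_⟩ ⟨?_, ?_⟩ ⟨?_, ?_⟩ ⟨?_, ?_⟩ ⟨?_, ?_⟩
    (pr' 1 0 2 (by decide +kernel) (by decide +kernel) (by decide +kernel))
    (pr' 2 1 3 (by decide +kernel) (by decide +kernel) (by decide +kernel))
    (pr' 3 2 4 (by decide +kernel) (by decide +kernel) (by decide +kernel))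
    (pr' 4 3 5 (by decide +kernel) (by decide +kernel) (by decide +kernel))
    (pr' 5 4 0 (by decide +kernel) (by decide +kernel) (by decide +kernel))
    (pr' 0 5 1 (by decide +kernel) (by decide +kernel) (by decide +kernel))
  · exact pr 0 1 9 (by decide +kernel) (by decide +kernel) (by decide +kernel)
  · rw [← hbb]; exact pr' 1 0 27 (by decide +kernel) (by decide +kernel) (by decide +kernel)
  · rw [← hbb]; exact pr 1 2 27 (by decide +kernel) (by decide +kernel) (by decide +kernel)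
  · rw [← hcc]; exact pr' 2 1 35 (by decide +kernel) (by decide +kernel) (by decide +kernel)
  · rw [← hcc]; exact pr 2 3 35 (by decide +kernel) (by decide +kernel) (by decide +kernel)
  · rw [← haa]; exact pr' 3 2 37 (by decide +kernel) (by decide +kernel) (by decide +kernel)
  · rw [← haa]; exact pr 3 4 37 (by decide +kernel) (by decide +kernel) (by decide +kernel)
  · exact pr' 4 3 11 (by decide +kernel) (by decide +kernel) (by decide +kernel)
  · exact pr 4 5 11 (by decide +kernel) (by decide +kernel) (by decide +kernel)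
  · exact pr' 5 4 19 (by decide +kernel) (by decide +kernel) (by decide +kernel)
  · exact pr 5 0 19 (by decide +kernel) (by decide +kernel) (by decide +kernel)
  · exact pr' 0 5 9 (by decide +kernel) (by decide +kernel) (by decide +kernel)

theorem index_eq : acyclicIndex G = 3 := by
  have h3 : 3 ∈ {k : ℕ | ∃ c : Sym2 (Fin 57) → ℕ, IsAcyclicColouring G c ∧
      ∀ e ∈ G.edgeSet, c e < k} := ⟨c0, c0_acyclic, c0_lt⟩
  refine le_antisymm (Nat.sInf_le h3) ?_
  obtain ⟨c, hc, hlt⟩ := Nat.sInf_mem ⟨3, h3⟩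
  have a1 : G.Adj 0 1 := by decide +kernel
  have a2 : G.Adj 0 5 := by decide +kernel
  have a3 : G.Adj 0 9 := by decide +kernel
  have h12 := proper_at hc a1 a2 (by decide)
  have h13 := proper_at hc a1 a3 (by decide)
  have h23 := proper_at hc a2 a3 (by decide)
  have l1 := hlt s(0, 1) a1
  have l2 := hlt s(0, 5) a2
  have l3 := hlt s(0, 9) a3
  unfold acyclicIndex
  omega

theorem list_index_gt : 3 < acyclicListIndex G := by
  have hne : Fintype.card (Sym2 (Fin 57)) ∈ {k : ℕ | ∀ L : Sym2 (Fin 57) → Finset ℕ,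
      (∀ e ∈ G.edgeSet, (L e).card = k) →
      ∃ c : Sym2 (Fin 57) → ℕ, IsAcyclicColouring G c ∧ ∀ e ∈ G.edgeSet, c e ∈ L e} :=
    fun L hL => long_lists G L hL
  have hmem := Nat.sInf_mem ⟨_, hne⟩
  by_contra hle
  have hle' : acyclicListIndex G ≤ 3 := not_lt.1 hle
  have hsub : ∀ e : Sym2 (Fin 57), ∃ t ⊆ L0 e, t.card = acyclicListIndex G := fun e =>
    Finset.exists_subset_card_eq (by rw [L0_card]; exact hle')
  choose L hL1 hL2 using hsub
  obtain ⟨c, hc, hcL⟩ := hmem L (fun e _ => hL2 e)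
  exact no_colouring c hc (fun e he => hL1 e (hcL e he))

end Pool.Agent.H38Z.Acy
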